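import Pool.Agent.TH289.C.C7

/-!
# Equivariant maps of geometrically finite convergence actions
-/

set_option autoImplicit false

open Filter Topology Set Pool.Agent.TH289.C

namespace Pool.Agent.N201.RC

section Top

variable {G : Type} [Group G] {X : Type} [TopologicalSpace X]

/-- `ξ` is a conical limit point: there are `g k` in `G` and points `a ≠ b` with `g k ξ → a` and
`g k x → b` for all `x ≠ ξ`. -/
def Conical (α : Action G X) (ξ : X) : Prop :=
  ∃ (g : ℕ → G) (a b : X), a ≠ b ∧ Tendsto (fun k => α.map (g k) ξ) atTop (𝓝 a) ∧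
    ∀ x, x ≠ ξ → Tendsto (fun k => α.map (g k) x) atTop (𝓝 b)

/-- `ξ` is a parabolic point: there are `g k` in `G` which fix `ξ` and satisfy `g k x → ξ` for
all points `x`. -/
def Parabolic (α : Action G X) (ξ : X) : Prop :=
  ∃ g : ℕ → G, (∀ k, α.map (g k) ξ = ξ) ∧ ∀ x, Tendsto (fun k => α.map (g k) x) atTop (𝓝 ξ)

/-- All orbits are dense. -/
def Minimal (α : Action G X) : Prop := ∀ x : X, Dense (range fun g => α.map g x)

theorem map_inv (α : Action G X) (g : G) (x : X) : α.map g⁻¹ (α.map g x) = x := by
  rw [← α.map_mul, inv_mul_cancel, α.map_one]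

theorem map_inj (α : Action G X) (g : G) {x y : X} (h : α.map g x = α.map g y) : x = y := by
  rw [← map_inv α g x, h, map_inv]

theorem hits {α : Action G X} (hm : Minimal α) (x : X) {U : Set X} (hU : IsOpen U)
    (hne : U.Nonempty) : ∃ g, α.map g x ∈ U := by
  obtain ⟨y, hyU, g, hg⟩ := (hm x).inter_open_nonempty U hU hne
  exact ⟨g, by simpa [hg] using hyU⟩

theorem infinite_X [T1Space X] [Nonempty X] (hX : ∀ x : X, (𝓝[≠] x).NeBot) : Infinite X := by
  by_contra hfin
  rw [not_infinite_iff_finite] at hfin
  obtain ⟨x⟩ := (inferInstance : Nonempty X)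
  have : DiscreteTopology X := Finite.instDiscreteTopology
  exact (hX x).ne (discreteTopology_iff_nhds_ne.1 this x)

theorem not_two [T1Space X] [Infinite X] {α : Action G X} (hm : Minimal α) (a b q : X) :
    ∃ t : G, α.map t a ≠ q ∧ α.map t b ≠ q := by
  by_contra hcon
  push Not at hcon
  have hsub : (range fun g => α.map g q) ⊆ {a, b} := by
    rintro _ ⟨g, rfl⟩
    by_cases h : α.map g⁻¹ a = q
    · left
      change α.map g q = a
      rw [← h, ← α.map_mul, mul_inv_cancel, α.map_one]
    · right
      have h2 := hcon _ h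
      change α.map g q = b
      rw [← h2, ← α.map_mul, mul_inv_cancel, α.map_one]
  have hfin : (range fun g => α.map g q).Finite := (Set.toFinite {a, b}).subset hsub
  have h1 : (range fun g => α.map g q) = univ := by
    rw [← hfin.isClosed.closure_eq]
    exact (hm q).closure_eq
  rw [h1] at hfin
  exact infinite_univ hfin

theorem infinite_G [T1Space X] [Nonempty X] [Infinite X] {α : Action G X} (hm : Minimal α) :
    Infinite G := by
  by_contra hfin
  rw [not_infinite_iff_finite] at hfin
  obtain ⟨q⟩ := (inferInstance : Nonempty X)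
  have hf : (range fun g => α.map g q).Finite := Set.finite_range _
  have h1 : (range fun g => α.map g q) = univ := by
    rw [← hf.isClosed.closure_eq]
    exact (hm q).closure_eq
  rw [h1] at hf
  exact infinite_univ hf

/-- Two points can be moved into a nonempty open set. -/
theorem move [T2Space X] [Nonempty X] [Infinite X] {α : Action G X} (hα : Converges α)
    (hm : Minimal α) (a b : X) {U : Set X} (hU : IsOpen U) (hne : U.Nonempty) :
    ∃ h : G, α.map h a ∈ U ∧ α.map h b ∈ U := by
  have hG : Infinite G := infinite_G hm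
  set g : ℕ → G := fun n => Infinite.natEmbedding G n with hg
  have hgi : Function.Injective g := (Infinite.natEmbedding G).injective
  obtain ⟨φ, hφ, p, q, hpq⟩ := hα g (tendsto_cofinite_of_inj hgi)
  obtain ⟨t, ht1, ht2⟩ := not_two hm a b q
  obtain ⟨h₀, hh₀⟩ := hits hm p hU hne
  have hV : (α.map h₀) ⁻¹' U ∈ 𝓝 p := (hU.preimage (α.cont h₀)).mem_nhds hh₀
  have hW : ({α.map t a, α.map t b} : Set X)ᶜ ∈ 𝓝 q := by
    refine IsOpen.mem_nhds ?_ ?_
    · exact (Set.toFinite _).isClosed.isOpen_compl
    · simp only [mem_compl_iff, mem_insert_iff, mem_singleton_iff, not_or]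
      exact ⟨fun h => ht1 h.symm, fun h => ht2 h.symm⟩
  obtain ⟨n, hn⟩ := (hpq _ hV _ hW).exists
  refine ⟨h₀ * g (φ n) * t, ?_, ?_⟩
  · rw [α.map_mul, α.map_mul]
    exact hn (α.map t a) (by simp)
  · rw [α.map_mul, α.map_mul]
    exact hn (α.map t b) (by simp)

/-- A continuous map to a Hausdorff space whose fibres are permuted by `G` (for instance an
equivariant map) and which is injective on a nonempty open set is injective. -/
theorem inj [T2Space X] [Nonempty X] [Infinite X] {α : Action G X} (hα : Converges α)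
    (hm : Minimal α) (hcp : ∀ ξ, Conical α ξ ∨ Parabolic α ξ) {Y : Type} [TopologicalSpace Y]
    [T2Space Y] (f : X → Y) (hf : Continuous f)
    (heq : ∀ g x y, f x = f y → f (α.map g x) = f (α.map g y)) {U : Set X} (hU : IsOpen U) (hne : U.Nonempty)
    (hi : InjOn f U) : Function.Injective f := by
  have hcon : ∀ x y, x ≠ y → f x = f y → ¬ Conical α x := by
    rintro x y hxy hfxy ⟨g, a, b, hab, h1, h2⟩
    have h3 : f a = f b := by
      have e1 : Tendsto (fun k => f (α.map (g k) x)) atTop (𝓝 (f a)) :=
        (hf.tendsto a).comp h1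
      have e2 : Tendsto (fun k => f (α.map (g k) y)) atTop (𝓝 (f b)) :=
        (hf.tendsto b).comp (h2 y hxy.symm)
      have e3 : (fun k => f (α.map (g k) x)) = fun k => f (α.map (g k) y) := by
        funext k
        exact heq _ _ _ hfxy
      rw [e3] at e1
      exact tendsto_nhds_unique e1 e2
    obtain ⟨h, ha, hb⟩ := move hα hm a b hU hne
    exact hab (map_inj α h (hi ha hb (heq _ _ _ h3)))
  intro x y hfxy
  by_contra hxy
  have hpar : Parabolic α x := (hcp x).resolve_left (hcon x y hxy hfxy)
  obtain ⟨p, hp1, hp2⟩ := hpar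
  obtain ⟨h, hh⟩ := hits hm x hU hne
  have hV : (α.map h) ⁻¹' U ∈ 𝓝 x := (hU.preimage (α.cont h)).mem_nhds hh
  have h3 := (hp2 y).eventually hV
  obtain ⟨k, hk⟩ := h3.exists
  have h4 : f (α.map h (α.map (p k) y)) = f (α.map h x) := by
    refine heq _ _ _ ?_
    rw [heq (p k) y x hfxy.symm, hp1]
  have h5 := hi hk hh h4
  have h6 := map_inj α h h5
  exact hxy (map_inj α (p k) (by rw [hp1, h6]))

end Top

end Pool.Agent.N201.RC
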