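import Pool.Agent.TH289.C.C7

/-!
# Properness for an equivariant map with three values
-/

set_option autoImplicit false

open Filter Topology Set Pool.Agent.TH289.C

namespace Pool.Agent.N201.RC

variable {E : Type} [NormedAddCommGroup E] [InnerProductSpace ℝ E]

theorem prop_hyp [FiniteDimensional ℝ E] {G : Type} [Group G] {X : Type} [MetricSpace X]
    {α : G →* (X ≃ₜ X)} (hα : IsConvergenceAction α)
    (ρ : G →* ((ℝ × E) ≃L[ℝ] (ℝ × E))) (hρ : ∀ g, IsIso (ρ g)) (f : X → Sph E)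
    (hf : Continuous f) (h3 : ∃ x y z, f x ≠ f y ∧ f y ≠ f z ∧ f x ≠ f z)
    (hequi : ∀ g x, ∃ c : ℝ, 0 < c ∧ ρ g (1, (f x : E)) = c • (1, (f (α g x) : E))) :
    ∀ K ⊆ Hyp E, IsCompact K → {g : G | ∃ v ∈ K, ρ g v ∈ K}.Finite := by
  obtain ⟨x, y, z, hxy, hyz, hxz⟩ := h3
  intro K hKH hK
  set τ := ContinuousLinearMap.fst ℝ ℝ E with hτ
  have hC : IsStrictCone (Lc E) τ := isStrictCone_Lc
  set F : X → ℝ × E := fun x => ((1 : ℝ), (f x : E)) with hF
  have hFne : ∀ x y, f x ≠ f y → F x ≠ F y := by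
    intro x y h h'
    exact h (Subtype.ext (congrArg Prod.snd h'))
  have hE : IsEquivariant α (Lc E) τ ρ F := by
    refine ⟨?_, fun x => ?_, fun g v hv => isIso_pres (hρ g) hv, fun g x => ?_⟩
    · exact continuous_const.prodMk (continuous_subtype_val.comp hf)
    · exact Bd_Lc.2 ⟨rfl, norm_coe _⟩
    · obtain ⟨c, hc, h1⟩ := hequi g x
      have h2 : ρ g (F x) = c • F (α g x) := h1
      have h4 : τ (F (α g x)) = 1 := rfl
      rw [h2, proj_smul hc.ne', proj_of_one h4]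
  have hz : ∀ i j : Fin 3, i ≠ j → F (![x, y, z] i) ≠ F (![x, y, z] j) := by
    intro i j hij
    fin_cases i <;> fin_cases j
    · exact absurd rfl hij
    · exact hFne _ _ hxy
    · exact hFne _ _ hxz
    · exact hFne _ _ hxy.symm
    · exact absurd rfl hij
    · exact hFne _ _ hyz
    · exact hFne _ _ hxz.symm
    · exact hFne _ _ hyz.symm
    · exact absurd rfl hij
  have hHL : ∀ v ∈ K, v ∈ Lc E := fun v hv => mem_Lc_iff.2 ⟨by rw [(hKH hv).1]; exact one_pos,
    (hKH hv).2⟩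
  have hposH : ∀ v ∈ Lc E, 0 < τ v := fun v hv => (mem_Lc_iff.1 hv).2
  have hc : ContinuousOn (proj τ) K := fun v hv =>
    (continuousAt_proj (hposH v (hHL v hv)).ne').continuousWithinAt
  refine (proper hα hC hE hz (K := proj τ '' K) (hK.image_of_continuousOn hc) ?_).subset ?_
  · rintro _ ⟨v, hv, rfl⟩
    exact proj_mem_Dom hC (hHL v hv) (hposH v (hHL v hv))
  · rintro g ⟨v, hv, hgv⟩
    refine ⟨proj τ v, ⟨v, hv, rfl⟩, ρ g v, hgv, ?_⟩
    have hp := hposH v (hHL v hv)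
    conv_rhs => rw [proj.eq_1 τ v, map_smul, proj_smul (inv_ne_zero hp.ne')]

end Pool.Agent.N201.RC
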