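import Pool.Agent.TH289.C.C7
import Pool.Agent.Helper514.IoD

/-!
# Injective continuous self-maps of a sphere are onto
-/

set_option autoImplicit false

open Filter Topology Set Pool.Agent.TH289.C

namespace Pool.Agent.N201.RC

variable {E : Type} [NormedAddCommGroup E] [InnerProductSpace ℝ E] [FiniteDimensional ℝ E]

omit [FiniteDimensional ℝ E] in
theorem exists_ne_sph (x : Sph E) : ∃ y : Sph E, x ≠ y := by
  refine ⟨⟨-(x : E), by simp⟩, fun h => ?_⟩
  have h1 : (x : E) = -(x : E) := congrArg Subtype.val h
  have h2 : (2 : ℝ) • (x : E) = 0 := by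
    rw [two_smul]
    nth_rewrite 2 [h1]
    simp
  have h3 := norm_coe x
  have h4 : (x : E) = 0 := by simpa using h2
  rw [h4, norm_zero] at h3
  exact zero_ne_one h3

theorem surj_sph (f : Sph E → Sph E) (hf : Continuous f) (hi : Function.Injective f) :
    Function.Surjective f := by
  intro y
  set a₀ : Sph E := y with ha₀
  set F : E → E := fun v => ‖v‖ • (f (nrm a₀ v) : E) with hF
  have hFn : ∀ v, ‖F v‖ = ‖v‖ := by
    intro v
    rw [hF]
    simp only
    rw [norm_smul, norm_norm, norm_coe, mul_one]
  have hcont : Continuous F := by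
    rw [continuous_iff_continuousAt]
    intro v
    by_cases hv : v = 0
    · subst hv
      have h0 : F 0 = 0 := by simp [hF]
      rw [ContinuousAt, h0, tendsto_zero_iff_norm_tendsto_zero]
      have : Tendsto (fun v : E => ‖v‖) (𝓝 0) (𝓝 0) := by
        simpa using (continuous_norm (E := E)).tendsto 0
      exact this.congr fun v => (hFn v).symm
    · have h1 : ContinuousAt (fun v => (f (nrm a₀ v) : E)) v :=
        ContinuousAt.comp (g := fun x : Sph E => (f x : E))
          (continuous_subtype_val.comp hf).continuousAt (continuousAt_nrm a₀ hv)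
      exact continuous_norm.continuousAt.smul h1
  have hinj : Function.Injective F := by
    intro v w hvw
    have hn : ‖v‖ = ‖w‖ := by rw [← hFn v, ← hFn w, hvw]
    by_cases hv : v = 0
    · subst hv
      rw [norm_zero] at hn
      exact (norm_eq_zero.1 hn.symm).symm
    · have hw : w ≠ 0 := by
        intro hw
        subst hw
        rw [norm_zero] at hn
        exact hv (norm_eq_zero.1 hn)
      have hp : ‖v‖ ≠ 0 := norm_ne_zero_iff.2 hv
      have h1 : ‖v‖ • (f (nrm a₀ v) : E) = ‖v‖ • (f (nrm a₀ w) : E) := by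
        have := hvw
        rw [hF] at this
        simp only at this
        rw [this, ← hn]
      have h2 : (f (nrm a₀ v) : E) = (f (nrm a₀ w) : E) := smul_right_injective E hp h1
      have h3 := hi (Subtype.ext h2)
      have h4 := congrArg (fun x : Sph E => (x : E)) h3
      rw [nrm_coe a₀ hv, nrm_coe a₀ hw, hn] at h4
      exact smul_right_injective E (inv_ne_zero (hn ▸ hp)) h4
  have himg := Helper514.IoD.image_mem_nhds F 0 1 one_pos hcont.continuousOn hinj.injOn
  have h0 : F 0 = 0 := by simp [hF]
  rw [h0, Metric.mem_nhds_iff] at himg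
  obtain ⟨ε, hε, hsub⟩ := himg
  have hmem : (ε / 2) • (y : E) ∈ Metric.ball (0 : E) ε := by
    rw [mem_ball_zero_iff, norm_smul, norm_coe, Real.norm_of_nonneg (by positivity)]
    linarith
  obtain ⟨v, -, hv⟩ := hsub hmem
  have hvn : ‖v‖ = ε / 2 := by
    rw [← hFn v, hv, norm_smul, norm_coe, Real.norm_of_nonneg (by positivity), mul_one]
  refine ⟨nrm a₀ v, Subtype.ext ?_⟩
  have h5 : (ε / 2) • (f (nrm a₀ v) : E) = (ε / 2) • (y : E) := by
    rw [← hv, hF]
    simp only
    rw [hvn]
  exact smul_right_injective E (by positivity : (ε / 2 : ℝ) ≠ 0) h5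

end Pool.Agent.N201.RC
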